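import Mathlib

/-!
Robinson's conjecture: P_n^b lies in T(1,b) for all n >= 1 and all real b >= 1.

Write F = P * (1-z)^(-b) and G = P * z(1-z)^(-b) (Hadamard products), so that P * k_x = F + x G.
Then (1+z) z F' = n (z F - G) and z (F' - G') = (b-1) G. If |G| < |F| failed somewhere in the disc,
take a point z0 of least modulus with |G| = |F|. F and G have no common zero, and by the Schwarz lemma
w = G/F satisfies z0 w'(z0) = m w(z0) with m >= 1. The system then gives
M (1 + z0) = n (z0 conj(w) + w) with M = m + n + b - 1 > n, whence z0 (M - n conj(w)) = -(M - n w) and |z0| = 1,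
a contradiction.
-/

open Polynomial

namespace Pool.Agent.Results.MP_e3b298_an.RobinsonConj

/-- `k`-th Taylor coefficient at `0`. -/
noncomputable def taylorCoeff (f : ℂ → ℂ) (k : ℕ) : ℂ := iteratedDeriv k f 0 / (k.factorial : ℂ)

/-- Hadamard product (convolution) of two functions analytic in the unit disc. -/
noncomputable def hadamard (f g : ℂ → ℂ) (z : ℂ) : ℂ :=
  ∑' k : ℕ, taylorCoeff f k * taylorCoeff g k * z ^ k

/-- The kernel `(1 + x z)(1 - z)^(-β)` (principal branch). -/
noncomputable def kernel (x : ℂ) (β : ℝ) (z : ℂ) : ℂ := (1 + x * z) * (1 - z) ^ (-(β : ℂ))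

/-- The class `T(1,β)`. -/
def T1 (β : ℝ) : Set (ℂ → ℂ) :=
  {φ | DifferentiableOn ℂ φ (Metric.ball 0 1) ∧ φ 0 = 1 ∧
    ∀ x : ℂ, ‖x‖ = 1 → ∀ z ∈ Metric.ball (0 : ℂ) 1, hadamard φ (kernel x β) z ≠ 0}

/-- Robinson's polynomials. -/
noncomputable def robinson (n : ℕ) (β : ℝ) (z : ℂ) : ℂ :=
  ∑ k ∈ Finset.range (n + 1),
    (((n.factorial : ℝ) / ((n - k).factorial : ℝ) *
      (Real.Gamma (β + n) / Real.Gamma (β + n + k)) : ℝ) : ℂ) * z ^ k

noncomputable def rp (x : ℝ) (k : ℕ) : ℝ := ∏ i ∈ Finset.range k, (x + i)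

noncomputable def fc (n : ℕ) (β : ℝ) (k : ℕ) : ℝ := (n.choose k) * rp β k / rp (β + n) k

noncomputable def gc (n : ℕ) (β : ℝ) (k : ℕ) : ℝ := (n.choose k) * k * rp β (k - 1) / rp (β + n) k

theorem rp_succ (x : ℝ) (k : ℕ) : rp x (k + 1) = rp x k * (x + k) := by
  rw [rp, rp, Finset.prod_range_succ]

theorem rp_pos {x : ℝ} (hx : 0 < x) (k : ℕ) : 0 < rp x k := by
  apply Finset.prod_pos; intro i _; positivity

theorem rel1 (n : ℕ) {β : ℝ} (k : ℕ) : (k : ℝ) * fc n β k = (β + k - 1) * gc n β k := by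
  rcases k with _ | k
  · simp [gc]
  · simp only [fc, gc, Nat.add_sub_cancel, rp_succ]
    push_cast
    ring

theorem rel2 (n : ℕ) {β : ℝ} (hβ : 0 < β) (k : ℕ) :
    (β + n + k) * gc n β (k + 1) = (n - k) * fc n β k := by
  have h1 : rp (β + n) k ≠ 0 := (rp_pos (by positivity) k).ne'
  have h2 : (β + n + k : ℝ) ≠ 0 := by positivity
  simp only [fc, gc, Nat.add_sub_cancel, rp_succ]
  have h3 : ((n.choose (k + 1) : ℕ) : ℝ) * ((k : ℝ) + 1) = (n.choose k) * (n - k) := by
    rcases le_or_gt k n with h | h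
    · have := Nat.choose_succ_right_eq n k
      have h4 : ((n - k : ℕ) : ℝ) = n - k := by push_cast [h]; ring
      rw [← h4]; exact_mod_cast this
    · rw [Nat.choose_eq_zero_of_lt h, Nat.choose_eq_zero_of_lt (by omega)]; simp
  push_cast
  field_simp
  linear_combination (rp β k) * h3

noncomputable def F (n : ℕ) (β : ℝ) : ℝ[X] := ∑ k ∈ Finset.range (n + 1), C (fc n β k) * X ^ k

noncomputable def G (n : ℕ) (β : ℝ) : ℝ[X] := ∑ k ∈ Finset.range (n + 1), C (gc n β k) * X ^ k

theorem coeff_F (n : ℕ) (β : ℝ) (k : ℕ) : (F n β).coeff k = fc n β k := by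
  simp only [F, finsetSum_coeff, coeff_C_mul_X_pow]
  rw [Finset.sum_ite_eq]
  split_ifs with h
  · rfl
  · have : n < k := by simpa using h
    simp [fc, Nat.choose_eq_zero_of_lt this]

theorem coeff_G (n : ℕ) (β : ℝ) (k : ℕ) : (G n β).coeff k = gc n β k := by
  simp only [G, finsetSum_coeff, coeff_C_mul_X_pow]
  rw [Finset.sum_ite_eq]
  split_ifs with h
  · rfl
  · have : n < k := by simpa using h
    simp [gc, Nat.choose_eq_zero_of_lt this]

theorem sys1 (n : ℕ) (β : ℝ) :
    X * derivative (F n β) - X * derivative (G n β) = C (β - 1) * G n β := by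
  ext k
  rcases k with _ | k
  · simp [coeff_G, gc]
  · rw [coeff_sub, coeff_X_mul, coeff_X_mul, coeff_C_mul, coeff_derivative, coeff_derivative,
      coeff_F, coeff_G]
    have := rel1 n (β := β) (k + 1)
    push_cast at this
    linear_combination this

theorem sys2 (n : ℕ) {β : ℝ} (hβ : 0 < β) :
    X * derivative (G n β) + C (β + n - 1) * G n β = X * (C (n : ℝ) * F n β - X * derivative (F n β)) := by
  ext k
  rcases k with _ | k
  · simp [coeff_G, gc]
  · rw [coeff_add, coeff_X_mul, coeff_X_mul, coeff_C_mul, coeff_sub, coeff_C_mul,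
      coeff_derivative, coeff_F, coeff_G]
    have := rel2 n hβ k
    rcases k with _ | k
    · simp at this ⊢
      linear_combination this
    · rw [coeff_X_mul, coeff_derivative, coeff_F]
      push_cast at this ⊢
      linear_combination this

theorem sysF (n : ℕ) {β : ℝ} (hβ : 0 < β) :
    (1 + X) * (X * derivative (F n β)) = C (n : ℝ) * (X * F n β - G n β) := by
  have h1 := sys1 n β
  have h2 := sys2 n hβ
  have e1 : C (β + n - 1) = C (β - 1) + C (n : ℝ) := by rw [← C_add]; congr 1; ring
  rw [e1] at h2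
  linear_combination h1 + h2

theorem sysG (n : ℕ) {β : ℝ} (hβ : 0 < β) :
    (1 + X) * (X * derivative (G n β)) = C (n : ℝ) * (X * F n β - G n β)
      - C (β - 1) * (1 + X) * G n β := by
  have h1 := sys1 n β
  have h2 := sysF n hβ
  linear_combination h2 - (1 + X) * h1

theorem F_zero (n : ℕ) (β : ℝ) : aeval (0:ℂ) (F n β) = 1 := by
  have h : aeval (0:ℂ) (F n β) = (((F n β).coeff 0 : ℝ) : ℂ) := by
    rw [← Polynomial.coeff_zero_eq_aeval_zero']; rfl
  rw [h, coeff_F]; simp [fc, rp]

theorem G_zero (n : ℕ) (β : ℝ) : aeval (0:ℂ) (G n β) = 0 := by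
  have h : aeval (0:ℂ) (G n β) = (((G n β).coeff 0 : ℝ) : ℂ) := by
    rw [← Polynomial.coeff_zero_eq_aeval_zero']; rfl
  rw [h, coeff_G]; simp [gc]

/-- no common zero away from 0 and -1 -/
theorem no_common_zero (n : ℕ) {β : ℝ} (hβ : 0 < β) (z : ℂ) (hz0 : z ≠ 0) (hz1 : 1 + z ≠ 0)
    (hF : aeval z (F n β) = 0) (hG : aeval z (G n β) = 0) : False := by
  set Fc : ℂ[X] := (F n β).map (algebraMap ℝ ℂ) with hFc
  set Gc : ℂ[X] := (G n β).map (algebraMap ℝ ℂ) with hGc
  have hF0 : Fc ≠ 0 := by
    intro h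
    have : Fc.coeff 0 = 1 := by
      rw [hFc, coeff_map, coeff_F]; simp [fc, rp]
    rw [h] at this; simp at this
  have hcop : ∀ k : ℕ, IsCoprime ((X - C z) ^ k : ℂ[X]) ((1 + X) * X) := by
    intro k
    apply IsCoprime.pow_left
    apply IsCoprime.mul_right
    · have : IsCoprime (X - C z : ℂ[X]) (X - C (-1)) := by
        apply Polynomial.isCoprime_X_sub_C_of_isUnit_sub
        rw [isUnit_iff_ne_zero]
        intro h; apply hz1; linear_combination h
      have e : (X - C (-1) : ℂ[X]) = 1 + X := by simp; ring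
      rw [e] at this; exact this
    · have : IsCoprime (X - C z : ℂ[X]) (X - C 0) := by
        apply Polynomial.isCoprime_X_sub_C_of_isUnit_sub
        rw [isUnit_iff_ne_zero]
        simpa using hz0
      simpa using this
  have hroot : ∀ k : ℕ, (X - C z) ^ (k + 1) ∣ Fc ∧ (X - C z) ^ (k + 1) ∣ Gc := by
    have hsF := congrArg (Polynomial.map (algebraMap ℝ ℂ)) (sysF n hβ)
    have hsG := congrArg (Polynomial.map (algebraMap ℝ ℂ)) (sysG n hβ)
    simp only [Polynomial.map_mul, Polynomial.map_add, Polynomial.map_sub, Polynomial.map_one,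
      map_X, map_C, ← derivative_map] at hsF hsG
    rw [← hFc, ← hGc] at hsF hsG
    have rF : Fc.IsRoot z := by
      rw [IsRoot.def, hFc, eval_map_algebraMap]; exact hF
    have rG : Gc.IsRoot z := by
      rw [IsRoot.def, hGc, eval_map_algebraMap]; exact hG
    intro k
    induction k with
    | zero => simpa using ⟨dvd_iff_isRoot.mpr rF, dvd_iff_isRoot.mpr rG⟩
    | succ k ih =>
      obtain ⟨dF, dG⟩ := ih
      have key : ∀ p : ℂ[X], p.IsRoot z → (X - C z) ^ (k + 1) ∣ (1 + X) * (X * derivative p) →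
          (X - C z) ^ (k + 1 + 1) ∣ p := by
        intro p hp hd
        by_cases hp0 : p = 0
        · rw [hp0]; exact dvd_zero _
        rw [← mul_assoc] at hd
        have hd' := (hcop (k + 1)).dvd_of_dvd_mul_left hd
        by_cases hdp : derivative p = 0
        · exfalso
          have hc := derivative_eq_zero.mp hdp
          rw [natDegree_eq_zero] at hc
          obtain ⟨c, hc⟩ := hc
          rw [← hc] at hp hp0
          simp at hp hp0
          exact hp0 hp
        have h1 := (le_rootMultiplicity_iff hdp).mpr hd'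
        rw [derivative_rootMultiplicity_of_root hp] at h1
        exact (le_rootMultiplicity_iff hp0).mp (by omega)
      constructor
      · apply key Fc rF
        rw [hsF]
        exact (dvd_sub (dF.mul_left _) dG).mul_left _
      · apply key Gc rG
        rw [hsG]
        exact dvd_sub ((dvd_sub (dF.mul_left _) dG).mul_left _) (dG.mul_left _)
  have h := (hroot Fc.natDegree).1
  have h2 := natDegree_le_of_dvd h hF0
  rw [natDegree_pow, natDegree_X_sub_C] at h2
  omega

/-- derivative of the squared norm along a curve -/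
theorem hasDerivAt_normSq {h : ℝ → ℂ} {h' : ℂ} {t : ℝ} (hh : HasDerivAt h h' t) :
    HasDerivAt (fun s => Complex.normSq (h s)) (2 * ((starRingEnd ℂ) (h t) * h').re) t := by
  have h1 : HasDerivAt (fun s => (h s).re) h'.re t := by
    exact (Complex.reCLM.hasFDerivAt (x := h t)).comp_hasDerivAt t hh
  have h2 : HasDerivAt (fun s => (h s).im) h'.im t := by
    exact (Complex.imCLM.hasFDerivAt (x := h t)).comp_hasDerivAt t hh
  have h3 := (h1.mul h1).add (h2.mul h2)
  have e : (fun s => Complex.normSq (h s)) = ((fun s => (h s).re) * fun s => (h s).re) +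
      ((fun s => (h s).im) * fun s => (h s).im) := by
    ext s; simp [Complex.normSq_apply]
  rw [e]
  refine h3.congr_deriv ?_
  simp
  ring

theorem main (n : ℕ) {β : ℝ} (hβ : 1 ≤ β) (z : ℂ) (hz : ‖z‖ < 1) :
    ‖aeval z (G n β)‖ < ‖aeval z (F n β)‖ := by
  have hβ0 : 0 < β := by linarith
  set f : ℂ → ℂ := fun z => aeval z (F n β) with hf
  set g : ℂ → ℂ := fun z => aeval z (G n β) with hg
  set f' : ℂ → ℂ := fun z => aeval z (derivative (F n β)) with hf'
  set g' : ℂ → ℂ := fun z => aeval z (derivative (G n β)) with hg'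
  have df : ∀ z, HasDerivAt f (f' z) z := fun z => Polynomial.hasDerivAt_aeval _ _
  have dg : ∀ z, HasDerivAt g (g' z) z := fun z => Polynomial.hasDerivAt_aeval _ _
  have cf : Continuous f := continuous_iff_continuousAt.mpr fun z => (df z).continuousAt
  have cg : Continuous g := continuous_iff_continuousAt.mpr fun z => (dg z).continuousAt
  have sF : ∀ z, (1 + z) * (z * f' z) = n * (z * f z - g z) := by
    intro z
    have := congrArg (aeval z) (sysF n hβ0)
    simpa using this
  have sG : ∀ z, (1 + z) * (z * g' z) = n * (z * f z - g z) - (β - 1) * (1 + z) * g z := by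
    intro z
    have := congrArg (aeval z) (sysG n hβ0)
    simpa using this
  by_contra hcon
  push Not at hcon
  -- minimal point
  set S : Set ℂ := {w | ‖w‖ ≤ ‖z‖ ∧ ‖f w‖ ≤ ‖g w‖} with hS
  have hScomp : IsCompact S := by
    have : S = Metric.closedBall 0 ‖z‖ ∩ {w | ‖f w‖ ≤ ‖g w‖} := by
      ext w; simp [hS]
    rw [this]
    exact (isCompact_closedBall 0 ‖z‖).inter_right (isClosed_le cf.norm cg.norm)
  obtain ⟨z0, hz0S, hz0min⟩ := hScomp.exists_isMinOn ⟨z, le_rfl, hcon⟩ continuous_norm.continuousOn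
  have hz0lt : ‖z0‖ < 1 := lt_of_le_of_lt hz0S.1 hz
  have hz0ne : z0 ≠ 0 := by
    intro h
    have := hz0S.2
    rw [h] at this
    simp only [hf, hg, F_zero, G_zero] at this
    norm_num at this
  have hr : 0 < ‖z0‖ := norm_pos_iff.mpr hz0ne
  have hlt : ∀ w, ‖w‖ < ‖z0‖ → ‖g w‖ < ‖f w‖ := by
    intro w hw
    by_contra h
    push Not at h
    have : w ∈ S := ⟨(hw.le.trans hz0S.1), h⟩
    exact absurd (hz0min this) (not_le.mpr hw)
  have h1z0 : (1 + z0) ≠ 0 := by
    intro h
    have : z0 = -1 := by linear_combination h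
    rw [this] at hz0lt; simp at hz0lt
  -- Schwarz
  have hsch : ∀ w, ‖w‖ < ‖z0‖ → ‖g w‖ * ‖z0‖ ≤ ‖w‖ * ‖f w‖ := by
    intro w hw
    have hfne : ∀ w ∈ Metric.ball (0:ℂ) ‖z0‖, f w ≠ 0 := by
      intro w hw
      have := hlt w (by simpa using hw)
      exact norm_pos_iff.mp (lt_of_le_of_lt (norm_nonneg _) this)
    have hd : DifferentiableOn ℂ (fun w => g w / f w) (Metric.ball 0 ‖z0‖) := by
      apply DifferentiableOn.div
      · intro w _; exact (dg w).differentiableAt.differentiableWithinAt
      · intro w _; exact (df w).differentiableAt.differentiableWithinAt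
      · exact hfne
    have hg0 : g 0 / f 0 = 0 := by simp only [hf, hg, F_zero, G_zero]; simp
    have hm : Set.MapsTo (fun w => g w / f w) (Metric.ball 0 ‖z0‖)
        (Metric.closedBall (g 0 / f 0) 1) := by
      intro w hw
      rw [hg0, mem_closedBall_zero_iff, norm_div, div_le_one (norm_pos_iff.mpr (hfne w hw))]
      exact (hlt w (by simpa using hw)).le
    have := Complex.dist_le_div_mul_dist_of_mapsTo_ball hd hm (z := w) (by simpa using hw)
    simp only [hg0] at this
    rw [dist_zero_right, dist_zero_right, norm_div] at this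
    have hfw : 0 < ‖f w‖ := norm_pos_iff.mpr (hfne w (by simpa using hw))
    rw [div_le_iff₀ hfw] at this
    calc ‖g w‖ * ‖z0‖ ≤ (1 / ‖z0‖ * ‖w‖ * ‖f w‖) * ‖z0‖ := by gcongr
      _ = ‖w‖ * ‖f w‖ := by field_simp
  -- equality at z0
  have heq : ‖g z0‖ = ‖f z0‖ := by
    apply le_antisymm _ hz0S.2
    have hcl : z0 ∈ closure (Metric.ball (0:ℂ) ‖z0‖) := by
      rw [closure_ball _ hr.ne']; simp
    have hsub : closure (Metric.ball (0:ℂ) ‖z0‖) ⊆ {w | ‖g w‖ ≤ ‖f w‖} := by
      apply closure_minimal _ (isClosed_le cg.norm cf.norm)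
      intro w hw
      exact (hlt w (by simpa using hw)).le
    exact hsub hcl
  have hf0 : f z0 ≠ 0 := by
    intro h
    have hg0 : g z0 = 0 := by rw [h, norm_zero] at heq; exact norm_eq_zero.mp heq
    exact no_common_zero n hβ0 z0 hz0ne h1z0 h hg0
  have hfsq : 0 < Complex.normSq (f z0) := Complex.normSq_pos.mpr hf0
  have heqsq : Complex.normSq (g z0) = Complex.normSq (f z0) := by
    rw [Complex.normSq_eq_norm_sq, Complex.normSq_eq_norm_sq, heq]
  -- curves
  have hrad : ∀ h h' : ℂ → ℂ, (∀ z, HasDerivAt h (h' z) z) →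
      HasDerivAt (fun t : ℝ => Complex.normSq (h ((t:ℂ) * z0)))
        (2 * ((starRingEnd ℂ) (h z0) * (z0 * h' z0)).re) 1 := by
    intro h h' hh
    have h1 : HasDerivAt (fun t : ℂ => t * z0) z0 ((1:ℝ):ℂ) := by
      simpa using (hasDerivAt_id ((1:ℝ):ℂ)).mul_const z0
    have h2 : HasDerivAt (fun t : ℂ => h (t * z0)) (h' z0 * z0) ((1:ℝ):ℂ) := by
      apply HasDerivAt.comp (h₂ := h) _ _ h1
      simpa using hh z0
    have h3 := hasDerivAt_normSq h2.comp_ofReal
    refine h3.congr_deriv ?_
    simp only [Complex.ofReal_one, one_mul]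
    rw [mul_comm (h' z0) z0]
  have hang : ∀ h h' : ℂ → ℂ, (∀ z, HasDerivAt h (h' z) z) →
      HasDerivAt (fun t : ℝ => Complex.normSq (h (Complex.exp ((t:ℂ) * Complex.I) * z0)))
        (2 * ((starRingEnd ℂ) (h z0) * (Complex.I * (z0 * h' z0))).re) 0 := by
    intro h h' hh
    have h1 : HasDerivAt (fun t : ℂ => Complex.exp (t * Complex.I) * z0) (Complex.I * z0) ((0:ℝ):ℂ) := by
      have h0 : HasDerivAt (fun t : ℂ => t * Complex.I) Complex.I ((0:ℝ):ℂ) := by
        simpa using (hasDerivAt_id ((0:ℝ):ℂ)).mul_const Complex.I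
      have := (h0.cexp).mul_const z0
      simpa using this
    have h2 : HasDerivAt (fun t : ℂ => h (Complex.exp (t * Complex.I) * z0)) (h' z0 * (Complex.I * z0))
        ((0:ℝ):ℂ) := by
      apply HasDerivAt.comp (h₂ := h) _ _ h1
      simpa using hh z0
    have h3 := hasDerivAt_normSq h2.comp_ofReal
    refine h3.congr_deriv ?_
    simp only [Complex.ofReal_zero, zero_mul, Complex.exp_zero, one_mul]
    congr 3; ring
  -- radial inequality
  have hR : Complex.normSq (f z0) + ((starRingEnd ℂ) (f z0) * (z0 * f' z0)).re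
      ≤ ((starRingEnd ℂ) (g z0) * (z0 * g' z0)).re := by
    have hA : HasDerivAt (fun t : ℝ => t ^ 2 * Complex.normSq (f ((t:ℂ) * z0))
        - Complex.normSq (g ((t:ℂ) * z0)))
        (2 * Complex.normSq (f z0) + 2 * ((starRingEnd ℂ) (f z0) * (z0 * f' z0)).re
          - 2 * ((starRingEnd ℂ) (g z0) * (z0 * g' z0)).re) 1 := by
      have h1 : HasDerivAt (fun t : ℝ => t ^ 2) (2 * 1) 1 := by
        simpa using hasDerivAt_pow 2 (1:ℝ)
      have h2 := (h1.mul (hrad f f' df)).sub (hrad g g' dg)
      refine h2.congr_deriv ?_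
      simp
    have hle : (2 * Complex.normSq (f z0) + 2 * ((starRingEnd ℂ) (f z0) * (z0 * f' z0)).re
          - 2 * ((starRingEnd ℂ) (g z0) * (z0 * g' z0)).re) ≤ 0 := by
      by_contra hpos
      push Not at hpos
      -- slope from the left is positive, but function is ≥ 0 on the left and 0 at 1
      have hev := (hasDerivAt_iff_tendsto_slope.mp hA).eventually_const_lt hpos
      rw [eventually_nhdsWithin_iff] at hev
      obtain ⟨ε, hε, hball⟩ := Metric.eventually_nhds_iff.mp hev
      set t : ℝ := 1 - min (ε / 2) (1 / 2) with ht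
      have hmin : 0 < min (ε / 2) (1 / 2) := by positivity
      have hmin2 : min (ε / 2) (1 / 2) ≤ 1 / 2 := min_le_right _ _
      have hmin3 : min (ε / 2) (1 / 2) ≤ ε / 2 := min_le_left _ _
      have ht1 : t < 1 := by linarith
      have ht0 : 0 < t := by linarith
      have hdist : dist t 1 < ε := by
        rw [Real.dist_eq, ht]
        rw [abs_lt]; constructor <;> linarith
      have hs := hball hdist (by simpa using ht1.ne)
      rw [slope_def_field] at hs
      have hval : (1:ℝ) ^ 2 * Complex.normSq (f (((1:ℝ):ℂ) * z0)) - Complex.normSq (g (((1:ℝ):ℂ) * z0)) = 0 := by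
        simp [heqsq]
      rw [hval, sub_zero] at hs
      have hnn : 0 ≤ t ^ 2 * Complex.normSq (f ((t:ℂ) * z0)) - Complex.normSq (g ((t:ℂ) * z0)) := by
        have hn : ‖(t:ℂ) * z0‖ = t * ‖z0‖ := by
          rw [norm_mul, Complex.norm_real, Real.norm_of_nonneg ht0.le]
        have := hsch ((t:ℂ) * z0) (by rw [hn]; nlinarith)
        rw [hn] at this
        have h5 : ‖g ((t:ℂ) * z0)‖ ≤ t * ‖f ((t:ℂ) * z0)‖ := by
          have h6 : ‖g ((t:ℂ) * z0)‖ * ‖z0‖ ≤ (t * ‖f ((t:ℂ) * z0)‖) * ‖z0‖ := by linarith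
          exact le_of_mul_le_mul_right h6 hr
        rw [Complex.normSq_eq_norm_sq, Complex.normSq_eq_norm_sq]
        have : ‖g ((t:ℂ) * z0)‖ ^ 2 ≤ (t * ‖f ((t:ℂ) * z0)‖) ^ 2 := by gcongr
        nlinarith
      have : (t ^ 2 * Complex.normSq (f ((t:ℂ) * z0)) - Complex.normSq (g ((t:ℂ) * z0))) / (t - 1) ≤ 0 :=
        div_nonpos_of_nonneg_of_nonpos hnn (by linarith)
      linarith
    linarith
  -- angular equality
  have hI : ((starRingEnd ℂ) (f z0) * (Complex.I * (z0 * f' z0))).re
      = ((starRingEnd ℂ) (g z0) * (Complex.I * (z0 * g' z0))).re := by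
    have hB := (hang f f' df).sub (hang g g' dg)
    have hmin : IsLocalMin ((fun t : ℝ => Complex.normSq (f (Complex.exp ((t:ℂ) * Complex.I) * z0))) -
        fun t : ℝ => Complex.normSq (g (Complex.exp ((t:ℂ) * Complex.I) * z0))) 0 := by
      apply Filter.Eventually.of_forall
      intro t
      simp only [Pi.sub_apply, Complex.ofReal_zero, zero_mul, Complex.exp_zero, one_mul, heqsq, sub_self]
      have hn : ‖Complex.exp ((t:ℂ) * Complex.I) * z0‖ = ‖z0‖ := by
        rw [norm_mul, Complex.norm_exp_ofReal_mul_I, one_mul]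
      have hcl : Complex.exp ((t:ℂ) * Complex.I) * z0 ∈ closure (Metric.ball (0:ℂ) ‖z0‖) := by
        rw [closure_ball _ hr.ne']; simp [hn]
      have hsub : closure (Metric.ball (0:ℂ) ‖z0‖) ⊆ {w | ‖g w‖ ≤ ‖f w‖} := by
        apply closure_minimal _ (isClosed_le cg.norm cf.norm)
        intro w hw
        exact (hlt w (by simpa using hw)).le
      have := hsub hcl
      simp only [Set.mem_ofPred_eq] at this
      rw [Complex.normSq_eq_norm_sq, Complex.normSq_eq_norm_sq, sub_nonneg]
      gcongr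
    have := hmin.hasDerivAt_eq_zero hB
    linarith
  -- algebra
  set u : ℂ := f z0 * (starRingEnd ℂ) (g z0) with hu
  set N : ℝ := Complex.normSq (f z0) with hN
  have hPQ : ∃ m : ℝ, 1 ≤ m ∧ (starRingEnd ℂ) (g z0) * (z0 * g' z0)
      - (starRingEnd ℂ) (f z0) * (z0 * f' z0) = ((m * N : ℝ) : ℂ) := by
    set p := (starRingEnd ℂ) (f z0) * (z0 * f' z0) with hp
    set r := (starRingEnd ℂ) (g z0) * (z0 * g' z0) with hr'
    refine ⟨(r.re - p.re) / N, ?_, ?_⟩
    · rw [le_div_iff₀ hfsq]; linarith
    · have him : r.im = p.im := by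
        have e1 : (starRingEnd ℂ) (f z0) * (Complex.I * (z0 * f' z0)) = Complex.I * p := by rw [hp]; ring
        have e2 : (starRingEnd ℂ) (g z0) * (Complex.I * (z0 * g' z0)) = Complex.I * r := by rw [hr']; ring
        rw [e1, e2] at hI
        simp at hI
        exact hI.symm
      apply Complex.ext
      · rw [div_mul_cancel₀ _ hfsq.ne']; simp
      · rw [div_mul_cancel₀ _ hfsq.ne']; simp [him]
  obtain ⟨m, hm1, hm⟩ := hPQ
  have hff : f z0 * (starRingEnd ℂ) (f z0) = (N : ℂ) := by rw [Complex.mul_conj]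
  have hgg : g z0 * (starRingEnd ℂ) (g z0) = (N : ℂ) := by rw [Complex.mul_conj, heqsq]
  have hfin : z0 * (((m + β - 1 + n) * N : ℝ) - n * u) = -((((m + β - 1 + n) * N : ℝ) : ℂ) - n * (starRingEnd ℂ) u) := by
    have hFz := sF z0
    have hGz := sG z0
    have hcu : (starRingEnd ℂ) u = g z0 * (starRingEnd ℂ) (f z0) := by
      rw [hu, map_mul, Complex.conj_conj, mul_comm]
    rw [hcu, hu]
    push_cast
    have e1 := congrArg (fun w => (1 + z0) * w) hm
    push_cast at e1
    linear_combination -e1 + (starRingEnd ℂ) (g z0) * hGz - (starRingEnd ℂ) (f z0) * hFz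
      + (-(n:ℂ) * z0) * hff + (-(n:ℂ) - (β - 1) * (1 + z0)) * hgg
  have hnorm := congrArg norm hfin
  rw [norm_neg, norm_mul] at hnorm
  have hconj : ‖((((m + β - 1 + n) * N : ℝ) : ℂ) - n * (starRingEnd ℂ) u)‖
      = ‖((((m + β - 1 + n) * N : ℝ) : ℂ) - n * u)‖ := by
    rw [← Complex.norm_conj]
    congr 1
    simp [Complex.conj_ofReal]
  rw [hconj] at hnorm
  have hne : ‖((((m + β - 1 + n) * N : ℝ) : ℂ) - n * u)‖ ≠ 0 := by
    rw [norm_ne_zero_iff]
    intro h
    have h1 : (((m + β - 1 + n) * N : ℝ) : ℂ) = n * u := by linear_combination h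
    have h2 := congrArg norm h1
    have hun : ‖u‖ = N := by
      rw [hu, norm_mul, Complex.norm_conj, heq, hN, Complex.normSq_eq_norm_sq]; ring
    have hnn : (0:ℝ) ≤ n := Nat.cast_nonneg n
    rw [Complex.norm_real, Real.norm_of_nonneg (mul_nonneg (by linarith) hfsq.le), norm_mul, hun, Complex.norm_natCast] at h2
    nlinarith
  have : ‖z0‖ = 1 := by
    have := mul_right_cancel₀ hne (hnorm.trans (one_mul _).symm)
    exact this
  linarith

theorem gamma_ratio {x : ℝ} (hx : 0 < x) (k : ℕ) : Real.Gamma x / Real.Gamma (x + k) = 1 / rp x k := by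
  induction k with
  | zero => simp [rp, (Real.Gamma_pos_of_pos hx).ne']
  | succ k ih =>
    have h1 : x + k ≠ 0 := by positivity
    have h2 : Real.Gamma (x + (k + 1 : ℕ)) = (x + k) * Real.Gamma (x + k) := by
      push_cast; rw [← add_assoc, Real.Gamma_add_one h1]
    have h3 : Real.Gamma (x + k) ≠ 0 := (Real.Gamma_pos_of_pos (by positivity)).ne'
    have h4 := (rp_pos hx k).ne'
    rw [h2, rp_succ]
    rw [div_eq_div_iff h3 h4] at ih
    rw [div_eq_div_iff (mul_ne_zero h1 h3) (mul_ne_zero h4 h1)]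
    linear_combination (x + k) * ih

theorem taylor_of_series {f : ℂ → ℂ} {c : ℕ → ℂ}
    (h : HasFPowerSeriesAt f (FormalMultilinearSeries.ofScalars ℂ c) 0) (k : ℕ) :
    taylorCoeff f k = c k := by
  have h3 := h.analyticAt.hasFPowerSeriesAt
  have h5 := h3.eq_formalMultilinearSeries h
  rw [FormalMultilinearSeries.ofScalars_series_eq_iff] at h5
  exact congrFun h5 k

theorem smeval_asc (x : ℝ) (k : ℕ) : (ascPochhammer ℕ k).smeval (x : ℂ) = ((rp x k : ℝ) : ℂ) := by
  induction k with
  | zero => simp [rp]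
  | succ k ih =>
    rw [ascPochhammer_succ_right, Polynomial.smeval_mul, ih, rp_succ]
    simp [Polynomial.smeval_add, Polynomial.smeval_natCast]

theorem taylor_pow (β : ℝ) (k : ℕ) :
    taylorCoeff (fun z : ℂ => (1 - z) ^ (-(β : ℂ))) k = ((rp β k / k.factorial : ℝ) : ℂ) := by
  have h := (Complex.one_div_one_sub_cpow_hasFPowerSeriesOnBall_zero (β : ℂ)).hasFPowerSeriesAt
  have e : (fun x : ℂ => 1 / (1 - x) ^ (β : ℂ)) = (fun z : ℂ => (1 - z) ^ (-(β : ℂ))) := by
    ext z; rw [Complex.cpow_neg, one_div]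
  rw [e] at h
  rw [taylor_of_series h k]
  have h1 := Ring.factorial_nsmul_multichoose_eq_ascPochhammer (β : ℂ) k
  rw [smeval_asc, Ring.multichoose_eq, nsmul_eq_mul] at h1
  have h2 : (k.factorial : ℂ) ≠ 0 := by exact_mod_cast k.factorial_ne_zero
  push_cast
  rw [← h1]; field_simp

theorem taylor_kernel (x : ℂ) (β : ℝ) (k : ℕ) :
    taylorCoeff (kernel x β) k = ((rp β k / k.factorial : ℝ) : ℂ)
      + x * ((k * rp β (k - 1) / k.factorial : ℝ) : ℂ) := by
  have hf : AnalyticAt ℂ (fun z : ℂ => (1 + x * z)) 0 := by fun_prop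
  have hg : AnalyticAt ℂ (fun z : ℂ => (1 - z) ^ (-(β : ℂ))) 0 := by
    apply AnalyticAt.cpow (by fun_prop) (by fun_prop)
    simp
  have e : kernel x β = (fun z : ℂ => (1 + x * z)) * (fun z : ℂ => (1 - z) ^ (-(β : ℂ))) := by
    ext z; simp [kernel]
  have hk : (k.factorial : ℂ) ≠ 0 := by exact_mod_cast k.factorial_ne_zero
  have hd1 : deriv (fun z : ℂ => (1 + x * z)) = fun _ => x := by
    ext z
    have : HasDerivAt (fun z : ℂ => (1 + x * z)) x z := by
      simpa using ((hasDerivAt_id z).const_mul x).const_add 1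
    exact this.deriv
  have hd : ∀ i : ℕ, iteratedDeriv (i + 2) (fun z : ℂ => (1 + x * z)) 0 = 0 := by
    intro i
    rw [iteratedDeriv_succ', hd1, iteratedDeriv_succ', deriv_const']
    simp
  have hgk : ∀ j, iteratedDeriv j (fun z : ℂ => (1 - z) ^ (-(β : ℂ))) 0 = ((rp β j : ℝ) : ℂ) := by
    intro j
    have := taylor_pow β j
    rw [taylorCoeff] at this
    have hj : (j.factorial : ℂ) ≠ 0 := by exact_mod_cast j.factorial_ne_zero
    rw [div_eq_iff hj] at this
    rw [this]; push_cast; field_simp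
  rw [taylorCoeff, e, iteratedDeriv_mul hf.contDiffAt hg.contDiffAt, div_eq_iff hk]
  rcases k with _ | k
  · simp [hgk]
  · rw [Finset.sum_range_succ', Finset.sum_range_succ']
    rw [Finset.sum_eq_zero (fun i _ => by rw [hd i]; simp)]
    simp only [zero_add, iteratedDeriv_zero, iteratedDeriv_one, hd1, hgk, Nat.choose_one_right,
      Nat.choose_zero_right, Nat.add_sub_cancel, Nat.sub_zero]
    push_cast
    field_simp
    simp
    ring

theorem taylor_robinson (n : ℕ) (β : ℝ) (k : ℕ) :
    taylorCoeff (robinson n β) k = if k ≤ n then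
      (((n.factorial : ℝ) / ((n - k).factorial : ℝ) *
      (Real.Gamma (β + n) / Real.Gamma (β + n + k)) : ℝ) : ℂ) else 0 := by
  set c : ℕ → ℂ := fun k => if k ≤ n then
      (((n.factorial : ℝ) / ((n - k).factorial : ℝ) *
      (Real.Gamma (β + n) / Real.Gamma (β + n + k)) : ℝ) : ℂ) else 0 with hc
  set p : ℂ[X] := ∑ k ∈ Finset.range (n + 1), C (c k) * X ^ k with hp
  have hpe : robinson n β = fun z => p.eval z := by
    ext z
    rw [hp, eval_finsetSum, robinson]
    apply Finset.sum_congr rfl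
    intro i hi
    have : i ≤ n := by simpa [Nat.lt_succ_iff] using hi
    simp [hc, this]
  have hit : ∀ j, iteratedDeriv j (fun z => p.eval z) = fun z => (derivative^[j] p).eval z := by
    intro j
    induction j with
    | zero => simp
    | succ j ih =>
      rw [iteratedDeriv_succ, ih]
      ext z
      rw [Polynomial.deriv, Function.iterate_succ_apply']
  have hk : (k.factorial : ℂ) ≠ 0 := by exact_mod_cast k.factorial_ne_zero
  rw [taylorCoeff, hpe, hit]
  simp only
  rw [← Polynomial.coeff_zero_eq_eval_zero, Polynomial.coeff_iterate_derivative]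
  simp only [zero_add, Nat.descFactorial_self, nsmul_eq_mul]
  rw [mul_div_cancel_left₀ _ hk, hp, finsetSum_coeff]
  simp only [coeff_C_mul_X_pow]
  rw [Finset.sum_ite_eq]
  by_cases h : k ≤ n
  · simp [h, hc, Nat.lt_succ_iff]
  · simp [h, Nat.lt_succ_iff]

/-- Robinson's conjecture. -/
theorem result : ∀ n : ℕ, 1 ≤ n → ∀ β : ℝ, 1 ≤ β → robinson n β ∈ T1 β := by
  intro n hn β hβ
  have hβ0 : 0 < β := by linarith
  have hbn : 0 < β + n := by positivity
  refine ⟨?_, ?_, ?_⟩
  · apply Differentiable.differentiableOn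
    unfold robinson
    fun_prop
  · unfold robinson
    rw [Finset.sum_range_succ', Finset.sum_eq_zero (fun i _ => by simp)]
    have h1 : (n.factorial : ℂ) ≠ 0 := by exact_mod_cast n.factorial_ne_zero
    have h2 : Real.Gamma (β + n) ≠ 0 := (Real.Gamma_pos_of_pos hbn).ne'
    simp [h1, h2]
  · intro x hx z hz
    have hz' : ‖z‖ < 1 := by simpa using hz
    have hcoef : ∀ k, taylorCoeff (robinson n β) k * taylorCoeff (kernel x β) k
        = ((fc n β k : ℝ) : ℂ) + x * ((gc n β k : ℝ) : ℂ) := by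
      intro k
      rw [taylor_robinson, taylor_kernel]
      by_cases h : k ≤ n
      · rw [if_pos h, gamma_ratio hbn k]
        have h1 : rp (β + n) k ≠ 0 := (rp_pos hbn k).ne'
        have h2 : (k.factorial : ℝ) ≠ 0 := by exact_mod_cast k.factorial_ne_zero
        have h3 : ((n - k).factorial : ℝ) ≠ 0 := by exact_mod_cast (n - k).factorial_ne_zero
        have h4 : ((n.choose k : ℕ) : ℝ) = n.factorial / (k.factorial * (n - k).factorial) := by
          rw [eq_div_iff (mul_ne_zero h2 h3)]
          have := Nat.choose_mul_factorial_mul_factorial h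
          rw [← mul_assoc]; exact_mod_cast this
        have e1 : (fc n β k : ℝ) = (n.factorial : ℝ) / ((n - k).factorial : ℝ) * (1 / rp (β + n) k) *
            (rp β k / k.factorial) := by
          rw [fc, h4]; field_simp
        have e2 : (gc n β k : ℝ) = (n.factorial : ℝ) / ((n - k).factorial : ℝ) * (1 / rp (β + n) k) *
            (k * rp β (k - 1) / k.factorial) := by
          rw [gc, h4]; field_simp
        rw [e1, e2]; push_cast; ring
      · have : n < k := by omega
        simp [h, fc, gc, Nat.choose_eq_zero_of_lt this]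
    have hsum : hadamard (robinson n β) (kernel x β) z = aeval z (F n β) + x * aeval z (G n β) := by
      rw [hadamard, tsum_eq_sum (s := Finset.range (n + 1))]
      · rw [F, G, map_sum, map_sum, Finset.mul_sum, ← Finset.sum_add_distrib]
        apply Finset.sum_congr rfl
        intro k _
        rw [hcoef]
        simp only [map_mul, map_pow, aeval_X, aeval_C, Complex.coe_algebraMap]
        ring
      · intro k hk
        have : n < k := by simpa using hk
        rw [hcoef]
        simp [fc, gc, Nat.choose_eq_zero_of_lt this]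
    rw [hsum]
    intro h0
    have h1 : aeval z (F n β) = -(x * aeval z (G n β)) := by linear_combination h0
    have h2 := congrArg norm h1
    rw [norm_neg, norm_mul, hx, one_mul] at h2
    have := main n hβ z hz'
    linarith

end Pool.Agent.Results.MP_e3b298_an.RobinsonConj
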